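import Pool.Agent.Work.MP_909527_an.Defs2
import Pool.Agent.Work.MP_909527_an.Bridge
import Pool.Agent.Work.MP_909527_an.Final

/-!
# MP_909527_an, Q1: YES

On every Cartan-Hadamard manifold of dimension `N ≥ 3` with `-c₁ ≤ sec ≤ -c₂ < 0`, for all
`1 < p < m`, every global solution of `u_t = Δ u^m + u^p` with nonnegative, nontrivial datum in
`L^m` (however small) blows up pointwise everywhere in infinite time.

Proof: `u(t₀, x₀) > 0` for some `t₀ > 0`. The functions
`v(t,x) = κ (a + σ (t - t₀) - ρ(x))_+^{1/(m-1)}` with `κ` small are subsolutions whose support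
expands at speed at least `σ = σ(κ) > 0`: near the free boundary the gradient term of `Δ v^m`
is positive, away from it the reaction term `v^p` beats the bounded negative part of `Δ v^m` since
`p < m` and `κ` is small. Very weak solutions dominate such subsolutions (comparison, proved by a
time discretisation of the equation with an `H^{-1}` estimate and an `L^1` contraction). With
`ρ = |x - x₀|²` the positivity of `u` reaches any given ball; then with `ρ = √(1 + |x|²)`, whose
Laplacian is bounded because the curvature is bounded below (radial Riccati inequality), one gets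
`u(t,x) ≥ κ (3 + σ (t - t₁) - ρ(x))_+^{1/(m-1)}` for all later times.

Manifolds are given in geodesic normal coordinates at a point (`NormalMetric`), which is no loss
of generality by the Cartan-Hadamard theorem and the Gauss lemma.
-/

open MeasureTheory Filter

namespace Pool.Agent.Results.MP_909527_an.InfiniteTimeBlowup

open Pool.Agent.MP909527.NC

/-- Q1 of MP_909527_an is true: infinite time blowup everywhere for all nontrivial data. -/
theorem result (N : ℕ) (hN : 3 ≤ N) (M : NormalMetric N) (c₁ c₂ : ℝ) (hc₂ : 0 < c₂)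
    (hc₁₂ : c₂ ≤ c₁)
    (hsec : ∀ x u v : V N, LinearIndependent ℝ ![u, v] →
      -c₁ ≤ M.sec x u v ∧ M.sec x u v ≤ -c₂)
    (m p : ℝ) (hp : 1 < p) (hpm : p < m)
    (u₀ : V N → ℝ) (hu₀ : MemLp u₀ (ENNReal.ofReal m) M.vol)
    (hpos : ∀ᵐ x ∂M.vol, 0 ≤ u₀ x) (hne : ¬ (u₀ =ᵐ[M.vol] 0))
    (u : ℝ → V N → ℝ) (hu : M.IsGlobalSolution m p u₀ u) (x : V N) :
    Tendsto (fun t => u t x) atTop atTop := by
  refine Pool.Agent.MP909527.stmt_Final N hN (Pool.Agent.MP909527.Bridge.toOld M) c₁ c₂ hc₂ hc₁₂
    ?_ m p hp hpm u₀ ?_ ?_ ?_ u (Pool.Agent.MP909527.Bridge.sol M hu) x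
  · intro x u v huv
    rw [← Pool.Agent.MP909527.Bridge.sec_eq]
    exact hsec x u v huv
  · rw [← Pool.Agent.MP909527.Bridge.vol_eq]
    exact hu₀
  · rw [← Pool.Agent.MP909527.Bridge.vol_eq]
    exact hpos
  · rw [← Pool.Agent.MP909527.Bridge.vol_eq]
    exact hne

end Pool.Agent.Results.MP_909527_an.InfiniteTimeBlowup
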